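import Pool.Agent.Helper93.ET.St

set_option autoImplicit false

/-!
# Project ET, module CMP: the last row
-/

noncomputable section

namespace Pool.Agent.Helper2.ET

open Matrix Pool.Agent.Helper93.ET

section

variable {A : Type} [CommRing A] {m : ℕ}

/-- the square matrix with rows `V` and last row `t` -/
def RR (V : Matrix (Fin m) (Fin (m + 1)) A) (t : Fin (m + 1) → A) :
    Matrix (Fin (m + 1)) (Fin (m + 1)) A :=
  Matrix.of fun i j => Fin.snoc (α := fun _ => A) (fun k : Fin m => V k j) (t j) i

lemma RR_castSucc (V : Matrix (Fin m) (Fin (m + 1)) A) (t : Fin (m + 1) → A) (i : Fin m)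
    (j : Fin (m + 1)) : RR V t i.castSucc j = V i j := by
  simp [RR]

lemma RR_last (V : Matrix (Fin m) (Fin (m + 1)) A) (t : Fin (m + 1) → A) (j : Fin (m + 1)) :
    RR V t (Fin.last m) j = t j := by
  simp [RR]

lemma RR_update (V : Matrix (Fin m) (Fin (m + 1)) A) (t s : Fin (m + 1) → A) :
    (RR V t).updateRow (Fin.last m) s = RR V s := by
  ext i j
  refine Fin.lastCases ?_ (fun i => ?_) i
  · rw [updateRow_self, RR_last]
  · rw [updateRow_ne (Fin.castSucc_lt_last i).ne, RR_castSucc, RR_castSucc]

/-- the vector of the maximal minors -/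
def cc (V : Matrix (Fin m) (Fin (m + 1)) A) : Fin (m + 1) → A :=
  fun j => (RR V (Pi.single j 1)).det

lemma det_RR (V : Matrix (Fin m) (Fin (m + 1)) A) (t : Fin (m + 1) → A) :
    (RR V t).det = ∑ j, t j * cc V j := by
  rw [det_eq_sum_mul_adjugate_row (RR V t) (Fin.last m)]
  refine Finset.sum_congr rfl fun j _ => ?_
  rw [RR_last, adjugate_apply, RR_update]
  rfl

lemma prod_det (V : Matrix (Fin m) (Fin (m + 1)) A) (W : Matrix (Fin (m + 1)) (Fin m) A)
    (h : V * W = 1) (t s : Fin (m + 1) → A) :
    (RR V t).det * (RR Wᵀ s).det =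
      (∑ k, t k * s k) - ∑ i, (∑ k, t k * W k i) * ∑ k, V i k * s k := by
  have hVW : ∀ i j, ∑ k, V i k * W k j = if i = j then 1 else 0 := by
    intro i j
    have := congrFun (congrFun h i) j
    rw [Matrix.mul_apply, Matrix.one_apply] at this
    exact this
  rw [← det_transpose (RR Wᵀ s), ← det_mul,
    ← det_submatrix_equiv_self (finSumFinEquiv : Fin m ⊕ Fin 1 ≃ Fin (m + 1))]
  have h1 : (RR V t * (RR Wᵀ s)ᵀ).submatrix (finSumFinEquiv : Fin m ⊕ Fin 1 ≃ Fin (m + 1))
      (finSumFinEquiv : Fin m ⊕ Fin 1 ≃ Fin (m + 1)) =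
      fromBlocks 1 (Matrix.of fun i _ => ∑ k, V i k * s k)
        (Matrix.of fun _ j => ∑ k, t k * W k j) (Matrix.of fun _ _ => ∑ k, t k * s k) := by
    have e1 : ∀ i : Fin m, (finSumFinEquiv : Fin m ⊕ Fin 1 ≃ Fin (m + 1)) (Sum.inl i) =
        i.castSucc := fun i => rfl
    have e2 : ∀ i : Fin 1, (finSumFinEquiv : Fin m ⊕ Fin 1 ≃ Fin (m + 1)) (Sum.inr i) =
        Fin.last m := by
      intro i
      apply Fin.ext
      have : (i : ℕ) = 0 := by omega
      simp [this]
    ext i j
    rcases i with i | i
    · rcases j with j | j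
      · rw [submatrix_apply, e1, e1, Matrix.mul_apply, fromBlocks_apply₁₁, Matrix.one_apply,
          ← hVW]
        refine Finset.sum_congr rfl fun k _ => ?_
        rw [transpose_apply, RR_castSucc, RR_castSucc, transpose_apply]
      · rw [submatrix_apply, e1, e2, Matrix.mul_apply, fromBlocks_apply₁₂, Matrix.of_apply]
        refine Finset.sum_congr rfl fun k _ => ?_
        rw [transpose_apply, RR_castSucc, RR_last]
    · rcases j with j | j
      · rw [submatrix_apply, e1, e2, Matrix.mul_apply, fromBlocks_apply₂₁, Matrix.of_apply]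
        refine Finset.sum_congr rfl fun k _ => ?_
        rw [transpose_apply, RR_castSucc, RR_last, transpose_apply]
      · rw [submatrix_apply, e2, e2, Matrix.mul_apply, fromBlocks_apply₂₂, Matrix.of_apply]
        refine Finset.sum_congr rfl fun k _ => ?_
        rw [transpose_apply, RR_last, RR_last]
  rw [h1, det_fromBlocks_one₁₁, det_fin_one, Matrix.sub_apply, Matrix.mul_apply]
  simp only [Matrix.of_apply]

end

theorem hCMP : StCMP := by
  classical
  intro A _ m V W h
  refine ⟨RR V (cc Wᵀ), ?_, fun i j => RR_castSucc V _ i j⟩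
  have hcc : ∀ i j, cc V i * cc Wᵀ j = (if i = j then 1 else 0) - ∑ l, W i l * V l j := by
    intro i j
    have h1 := prod_det V W h (Pi.single i 1) (Pi.single j 1)
    have e1 : (RR V (Pi.single i 1)).det = cc V i := rfl
    have e2 : (RR Wᵀ (Pi.single j 1)).det = cc Wᵀ j := rfl
    rw [e1, e2] at h1
    rw [h1]
    congr 1
    · rw [Finset.sum_eq_single i]
      · simp [Pi.single_apply]
      · intro b _ hb
        rw [Pi.single_eq_of_ne hb, zero_mul]
      · intro hi
        exact absurd (Finset.mem_univ i) hi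
    · refine Finset.sum_congr rfl fun l _ => ?_
      congr 1
      · rw [Finset.sum_eq_single i]
        · rw [Pi.single_eq_same, one_mul]
        · intro b _ hb
          rw [Pi.single_eq_of_ne hb, zero_mul]
        · intro hi
          exact absurd (Finset.mem_univ i) hi
      · rw [Finset.sum_eq_single j]
        · rw [Pi.single_eq_same, mul_one]
        · intro b _ hb
          rw [Pi.single_eq_of_ne hb, mul_zero]
        · intro hi
          exact absurd (Finset.mem_univ j) hi
  rw [det_RR]
  have h2 : ∑ j, cc Wᵀ j * cc V j = ∑ j : Fin (m + 1), ((1 : A) - ∑ l, W j l * V l j) := by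
    refine Finset.sum_congr rfl fun j _ => ?_
    rw [mul_comm, hcc, if_pos rfl]
  rw [h2, Finset.sum_sub_distrib, Finset.sum_comm]
  have h3 : ∑ l : Fin m, ∑ j : Fin (m + 1), W j l * V l j = ∑ l : Fin m, (1 : A) := by
    refine Finset.sum_congr rfl fun l _ => ?_
    have h4 := congrFun (congrFun h l) l
    rw [Matrix.mul_apply, Matrix.one_apply, if_pos rfl] at h4
    rw [← h4]
    exact Finset.sum_congr rfl fun j _ => mul_comm _ _
  rw [h3]
  simp

end Pool.Agent.Helper2.ET
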