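import Pool.Agent.Helper93.ET.St

set_option autoImplicit false

/-!
# Project ET, module IND: the tower
-/

noncomputable section

namespace Pool.Agent.Helper2.ET

open Matrix Pool.Agent.Helper93.ET

theorem hIND (h1 : StSTEP) (h2 : StRNK) : StIND := by
  classical
  intro A _ p a n k hp hpA ha D l
  induction l with
  | zero =>
    intro _
    refine ⟨A, inferInstance, Algebra.id A, D, inferInstance, inferInstance, ?_, ?_⟩
    · intro x
      have : Nontrivial A := x.nontrivial
      rw [Module.rankAtStalk_self]
      simp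
    · intro i j
      rfl
  | succ l ih =>
    intro hl
    obtain ⟨B, _, _, D', hE, hF, hR, hV⟩ := ih (by omega)
    have hpB : (p : B) = 0 := by
      have := congrArg (algebraMap A B) hpA
      rw [map_natCast, map_zero] at this
      exact this
    obtain ⟨B', _, _, D'', hE', hF', hN, hV'⟩ := h1 B p a n (k + l) hp hpB ha D'
    letI : Algebra A B' := ((algebraMap B B').comp (algebraMap A B)).toAlgebra
    haveI : IsScalarTower A B B' := IsScalarTower.of_algebraMap_eq fun _ => rfl
    haveI hE2 : Algebra.Etale A B' := Algebra.Etale.comp A B B'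
    haveI hF2 : Module.Finite A B' := Module.Finite.trans B B'
    haveI : Module.Flat A B := Algebra.Smooth.flat A B
    haveI : Module.Flat A B' := Algebra.Smooth.flat A B'
    refine ⟨B', inferInstance, inferInstance, D'', hE2, hF2, ?_, ?_⟩
    · intro x
      have h3 := h2 A B B' ((p ^ a) ^ (k + l)) ((p ^ a) ^ n) hN x
      rw [hR x] at h3
      rw [Finset.prod_range_succ]
      set R := ∏ i ∈ Finset.range l, ((p ^ a) ^ (n - k - i) - 1) with hRdef
      have hpos : 0 < (p ^ a) ^ (k + l) := pow_pos (pow_pos hp.pos _) _
      have hpos2 : 0 < (p ^ a) ^ (n - k - l) := pow_pos (pow_pos hp.pos _) _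
      have e1 : (p ^ a) ^ n = (p ^ a) ^ (k + l) * (p ^ a) ^ (n - k - l) := by
        rw [← pow_add]
        congr 1
        omega
      rw [e1, mul_assoc] at h3
      have h4 := Nat.eq_of_mul_eq_mul_left hpos h3
      have h5 : (p ^ a) ^ (n - k - l) * R = R + R * ((p ^ a) ^ (n - k - l) - 1) := by
        obtain ⟨c, hc⟩ : ∃ c, (p ^ a) ^ (n - k - l) = c + 1 := ⟨_, (Nat.succ_pred_eq_of_pos hpos2).symm⟩
        rw [hc, Nat.add_sub_cancel]
        ring
      rw [h5] at h4
      exact Nat.add_left_cancel h4
    · intro i j
      have h3 := hV' (Fin.castAdd l i) j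
      rw [hV i j] at h3
      exact h3

end Pool.Agent.Helper2.ET
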